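import Pool.Agent.Helper80.RF.Def
import Pool.Agent.Helper28.RF.Fat

/-! MP_47cd0b_co, THEOREM D, row D2b: `def_sum`. -/

set_option autoImplicit false
set_option linter.unusedSectionVars false

namespace Pool.Agent.Helper80.RF

open Finset Classical H20SW

variable {Y U E G P R : Type} [Fintype Y] [Fintype U] [Fintype E] (C : Cone Y U E G P R)

/-- **The deficiency estimate** (row D2b). -/
theorem def_sum {a : ℕ} (ha : 3000 ≤ a) (hN : a ^ 40 ≤ Fintype.card Y)
    (hs : C.s ≤ a ^ 34) {J : Finset E} {α β : E → Y}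
    (hJ : C.Fam (a ^ 19) a J α β) (z : U) :
    1 ≤ C.Fz (a ^ 19) z + (C.Jz J z : ℝ) / (4 * Fintype.card Y) :=
  def_sum_of C (fun z X' hX p t0 ht0 l0 hl0 hl0p hl0t h2 hN hlt =>
    Pool.Agent.Helper28.RF.fat_sum_ge C z X' hX p t0 ht0 l0 hl0 hl0p hl0t h2 hN hlt) ha hN hs hJ z

end Pool.Agent.Helper80.RF
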