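import Pool.Agent.Helper80.RF.DefA

/-! MP_47cd0b_co, THEOREM D, row D2b: the deficiency estimate `def_sum`. -/

set_option autoImplicit false
set_option linter.unusedSectionVars false

namespace Pool.Agent.Helper80.RF

open Finset Classical H20SW

variable {Y U E G P R : Type} [Fintype Y] [Fintype U] [Fintype E] (C : Cone Y U E G P R)

theorem tl_le (l : E) : C.tl l ≤ C.s := C.short l

/-- Many fat lines. -/
theorem Fz_ge_of_many {p : ℕ} (z : U) (hs : C.s < Fintype.card Y)
    (h : Fintype.card Y ≤ (univ.filter fun l => C.ok z l ∧ p ≤ C.tl l).card) :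
    1 ≤ C.Fz p z := by
  unfold Cone.Fz
  have hN : (0 : ℝ) < Fintype.card Y := by
    have : 0 < Fintype.card Y := by omega
    exact_mod_cast this
  have h1 : ∀ l ∈ univ.filter (fun l => C.ok z l ∧ p ≤ C.tl l),
      (1 : ℝ) / Fintype.card Y ≤ 1 / ((Fintype.card Y : ℝ) - C.tl l) := by
    intro l _
    have h2 : C.tl l < Fintype.card Y := (tl_le C l).trans_lt hs
    have h3 : (C.tl l : ℝ) < Fintype.card Y := by exact_mod_cast h2
    have h4 : (0 : ℝ) ≤ C.tl l := Nat.cast_nonneg _
    apply one_div_le_one_div_of_le <;> linarith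
  refine le_trans ?_ (sum_le_sum h1)
  rw [sum_const, nsmul_eq_mul]
  have h5 : (Fintype.card Y : ℝ) ≤ ((univ.filter fun l => C.ok z l ∧ p ≤ C.tl l).card : ℝ) := by
    exact_mod_cast h
  rw [mul_one_div, le_div_iff₀ hN, one_mul]
  exact h5

theorem Fz_nonneg {p : ℕ} (z : U) (hs : C.s < Fintype.card Y) : 0 ≤ C.Fz p z := by
  unfold Cone.Fz
  refine sum_nonneg fun l _ => ?_
  have h2 : C.tl l < Fintype.card Y := (tl_le C l).trans_lt hs
  have h3 : (C.tl l : ℝ) < Fintype.card Y := by exact_mod_cast h2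
  apply div_nonneg zero_le_one
  linarith

/-- The arithmetic of the long case. -/
theorem arith_long {N F j B t q M J' a : ℝ} (ha : 3000 ≤ a) (hj : 0 ≤ j) (hB : B * (a - 1) ≤ 2 * j)
    (hB0 : 0 ≤ B) (hM : N ≤ M + B + 1) (hJ : J' ≤ j) (ht : 10 * q ≤ t) (ht10 : 10 ≤ t)
    (hq : 0 ≤ q) (htN : 1000 * t ≤ N)
    (h : (M + 1 - t) * (t - 1) ≤ (N - t) * F * (t - 1) + J' * q) : 1 ≤ F + j / (4 * N) := by
  have hN : 0 < N := by linarith
  have hB' : 2999 * B ≤ 2 * j := by nlinarith
  have h1 : J' * q ≤ (j / 9) * (t - 1) := by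
    have h2 : q ≤ (t - 1) / 9 := by linarith
    calc J' * q ≤ j * q := mul_le_mul_of_nonneg_right hJ hq
      _ ≤ j * ((t - 1) / 9) := mul_le_mul_of_nonneg_left h2 hj
      _ = (j / 9) * (t - 1) := by ring
  have ht1 : 0 < t - 1 := by linarith
  have h2 : (N - B - t) * (t - 1) ≤ ((N - t) * F + j / 9) * (t - 1) := by
    have h3 : (N - B - t) * (t - 1) ≤ (M + 1 - t) * (t - 1) :=
      mul_le_mul_of_nonneg_right (by linarith) ht1.le
    calc (N - B - t) * (t - 1) ≤ (M + 1 - t) * (t - 1) := h3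
      _ ≤ (N - t) * F * (t - 1) + J' * q := h
      _ ≤ (N - t) * F * (t - 1) + (j / 9) * (t - 1) := by linarith
      _ = ((N - t) * F + j / 9) * (t - 1) := by ring
  have h3 : N - B - t ≤ (N - t) * F + j / 9 := le_of_mul_le_mul_right h2 ht1
  by_contra hcon
  push Not at hcon
  have h4 : j / (4 * N) < 1 - F := by linarith
  have h5 : (N - t) * (j / (4 * N)) ≤ (N - t) * (1 - F) :=
    mul_le_mul_of_nonneg_left h4.le (by linarith)
  have h6 : (24 / 100) * j ≤ (N - t) * (j / (4 * N)) := by
    rw [mul_div_assoc', le_div_iff₀ (by positivity)]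
    nlinarith
  have h7 : (N - t) * (1 - F) ≤ B + j / 9 := by linarith
  have h8 : B + j / 9 ≤ (12 / 100) * j := by linarith
  have h9 : j ≤ 0 := by linarith
  have h10 : j = 0 := le_antisymm h9 hj
  rw [h10] at h4 h7
  have h11 : 0 < 1 - F := by simpa using h4
  have h12 : B = 0 := by nlinarith
  have h13 : 0 < (N - t) * (1 - F) := mul_pos (by linarith) h11
  rw [h12] at h7
  linarith

/-- **The deficiency estimate**, with part B as a hypothesis. -/
theorem def_sum_of (fat : ∀ (z : U) (X' : Finset Y), (∀ x ∈ X', ¬ C.tip z x) → ∀ (p t0 : ℕ),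
      (∀ l, C.ok z l → p ≤ C.tl l → (X'.filter fun x => C.on x l).card ≤ t0) →
      ∀ l0 : E, C.ok z l0 → p ≤ C.tl l0 → (X'.filter fun x => C.on x l0).card = t0 → 2 ≤ t0 →
      2 * t0 ≤ Fintype.card Y → (∀ l, C.tl l < Fintype.card Y) →
      ((X'.card : ℝ) + 1 - t0) * (t0 - 1) ≤ ((Fintype.card Y : ℝ) - t0) * C.Fz p z * (t0 - 1) +
        ((univ.filter fun l => C.ok z l ∧ C.tl l < p ∧
          2 ≤ (X'.filter fun x => C.on x l).card).card : ℝ) * p)
    {a : ℕ} (ha : 3000 ≤ a) (hN : a ^ 40 ≤ Fintype.card Y)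
    (hs : C.s ≤ a ^ 34) {J : Finset E} {α β : E → Y}
    (hJ : C.Fam (a ^ 19) a J α β) (z : U) :
    1 ≤ C.Fz (a ^ 19) z + (C.Jz J z : ℝ) / (4 * Fintype.card Y) := by
  set N := Fintype.card Y with hNd
  set p := a ^ 19 with hp
  have ha0 : 0 < a := by omega
  have hp0 : 0 < p := by positivity
  -- sizes
  have hNp : 9000000 * p ^ 2 ≤ N := by
    calc 9000000 * p ^ 2 = 3000 ^ 2 * p ^ 2 := by norm_num
      _ ≤ a ^ 2 * p ^ 2 := Nat.mul_le_mul_right _ (Nat.pow_le_pow_left ha 2)
      _ = a ^ 40 := by rw [hp]; ring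
      _ ≤ N := hN
  have hNs : 1000 * C.s ≤ N := by
    calc 1000 * C.s ≤ a ^ 6 * a ^ 34 := by
          apply Nat.mul_le_mul _ hs
          calc 1000 ≤ 3000 ^ 6 := by norm_num
            _ ≤ a ^ 6 := Nat.pow_le_pow_left ha 6
      _ = a ^ 40 := by ring
      _ ≤ N := hN
  have hp2 : 1 ≤ p ^ 2 := Nat.one_le_pow _ _ hp0
  have hN9 : 9000000 ≤ N := by omega
  have hsN : C.s < N := by omega
  have hNR : (0 : ℝ) < N := by exact_mod_cast (show 0 < N by omega)
  rcases le_or_gt (4 * N) (C.Jz J z) with hbig | hsmall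
  · have h1 : (1 : ℝ) ≤ (C.Jz J z : ℝ) / (4 * N) := by
      rw [le_div_iff₀ (by positivity), one_mul]
      exact_mod_cast hbig
    have h2 := Fz_nonneg C (p := p) z hsN
    linarith
  -- the saturated points
  set X := Xp C J α β a z with hX
  have hXt : ∀ x ∈ X, ¬ C.tip z x := by
    intro x hx
    rw [hX, Xp, mem_filter] at hx
    exact hx.2.1
  have hc := card_Xp C J α β a z
  have hB := sat_le C hJ z
  have hT := thin_le C hJ z
  rw [← hX, ← hNd] at hc
  rw [← hX] at hT
  set B := (Bs C J α β a z).card with hBd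
  set j := C.Jz J z with hj
  set J' := (univ.filter fun l => C.ok z l ∧ C.tl l < p ∧
      2 ≤ (X.filter fun x => C.on x l).card).card with hJ'
  have hB2 : B * 2999 ≤ 2 * j := (Nat.mul_le_mul_left _ (by omega)).trans hB
  have htl : ∀ l, C.tl l < N := fun l => (tl_le C l).trans_lt hsN
  have hs1 : 1 ≤ C.s := by
    obtain ⟨x, y, hxy⟩ : ∃ x y : Y, x ≠ y := by
      have : 1 < Fintype.card Y := by omega
      exact Fintype.exists_pair_of_one_lt_card this
    obtain ⟨l, hl1, hl2⟩ := C.join x y hxy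
    have h1 := C.short l
    have h2 : 0 < (univ.filter fun y => C.on y l).card :=
      card_pos.mpr ⟨x, mem_filter.mpr ⟨mem_univ _, hl1⟩⟩
    omega
  -- is there a long fat line?
  by_cases hlong : ∃ l, C.ok z l ∧ p ≤ C.tl l ∧ 10 * p ≤ (X.filter fun x => C.on x l).card
  · obtain ⟨l1, hl1, hl1p, hl1t⟩ := hlong
    obtain ⟨l0, hl0, hmax⟩ := exists_max_image (univ.filter fun l => C.ok z l ∧ p ≤ C.tl l)
      (fun l => (X.filter fun x => C.on x l).card)
      ⟨l1, mem_filter.mpr ⟨mem_univ _, hl1, hl1p⟩⟩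
    rw [mem_filter] at hl0
    set t0 := (X.filter fun x => C.on x l0).card with ht0
    have h10 : 10 * p ≤ t0 := hl1t.trans (hmax l1 (mem_filter.mpr ⟨mem_univ _, hl1, hl1p⟩))
    have ht0s : t0 ≤ C.s := by
      refine (card_le_card ?_).trans (C.short l0)
      intro x hx
      rw [mem_filter] at hx ⊢
      exact ⟨mem_univ _, hx.2⟩
    have h1 := fat z X hXt p t0 (fun l hl hlp => hmax l (mem_filter.mpr ⟨mem_univ _, hl, hlp⟩))
      l0 hl0.2.1 hl0.2.2 rfl (by omega) (by omega) htl
    rw [← hJ'] at h1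
    refine arith_long (a := a) (B := B) (M := X.card) (J' := J') (t := t0) (q := p)
      (by exact_mod_cast ha) (Nat.cast_nonneg _) ?_ (Nat.cast_nonneg _) (by exact_mod_cast hc)
      (by exact_mod_cast hT) (by exact_mod_cast h10) ?_ (Nat.cast_nonneg _) ?_ h1
    · have h2 : ((B * (a - 1) : ℕ) : ℝ) ≤ ((2 * j : ℕ) : ℝ) := by exact_mod_cast hB
      rw [Nat.cast_mul, Nat.cast_sub (by omega : 1 ≤ a)] at h2
      push_cast at h2
      exact h2
    · have : 10 ≤ t0 := by omega
      exact_mod_cast this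
    · have : 1000 * t0 ≤ N := by omega
      exact_mod_cast this
  · -- no long fat line
    push Not at hlong
    have h1 : 1 ≤ C.Fz p z := by
      apply Fz_ge_of_many C z hsN
      by_contra hcon
      push Not at hcon
      rw [← hNd] at hcon
      have hk : ∀ l, C.ok z l → (X.filter fun x => C.on x l).card ≤ 10 * p := by
        intro l hl
        rcases le_or_gt p (C.tl l) with h | h
        · exact (hlong l hl h).le
        · have h2 : (X.filter fun x => C.on x l).card ≤ C.tl l := by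
            refine card_le_card ?_
            intro x hx
            rw [mem_filter] at hx ⊢
            exact ⟨mem_univ _, hx.2⟩
          omega
      have h2 := pairs_le C z X hXt hs1 hk
      have h3 : (univ.filter fun l => C.ok z l ∧ 2 ≤ (X.filter fun x => C.on x l).card).card ≤
          (univ.filter fun l => C.ok z l ∧ p ≤ C.tl l).card + J' := by
        rw [hJ']
        refine (card_le_card ?_).trans (card_union_le _ _)
        intro l hl
        rw [mem_filter] at hl
        rw [mem_union, mem_filter, mem_filter]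
        rcases le_or_gt p (C.tl l) with h | h
        · exact Or.inl ⟨mem_univ _, hl.2.1, h⟩
        · exact Or.inr ⟨mem_univ _, hl.2.1, h, hl.2.2⟩
      have h4 : (univ.filter fun l => C.ok z l ∧ 2 ≤ (X.filter fun x => C.on x l).card).card ≤
          5 * N := by omega
      have h5 : X.card * (X.card - C.s) ≤ 5 * N * (10 * p) ^ 2 :=
        h2.trans (Nat.mul_le_mul_right _ h4)
      have h6 : 98 * N ≤ 100 * X.card := by omega
      have h7 : 97 * N ≤ 100 * (X.card - C.s) := by omega
      have h8 : (98 * N) * (97 * N) ≤ (100 * X.card) * (100 * (X.card - C.s)) :=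
        Nat.mul_le_mul h6 h7
      have h9 : (100 * X.card) * (100 * (X.card - C.s)) = 10000 * (X.card * (X.card - C.s)) := by
        ring
      have h10 : 10000 * (X.card * (X.card - C.s)) ≤ 10000 * (5 * N * (10 * p) ^ 2) :=
        Nat.mul_le_mul_left _ h5
      have h11 : 10000 * (5 * N * (10 * p) ^ 2) = N * (5000000 * p ^ 2) := by ring
      have h12 : N * (5000000 * p ^ 2) ≤ N * N := Nat.mul_le_mul_left _ (by omega)
      have h13 : (98 * N) * (97 * N) = 9506 * (N * N) := by ring
      have h14 : 0 < N * N := by positivity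
      omega
    have h2 : (0 : ℝ) ≤ (j : ℝ) / (4 * N) := by positivity
    linarith

end Pool.Agent.Helper80.RF
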