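import Pool.Agent.Helper20.SW.Cone

/-! MP_47cd0b_co, THEOREM D, row D2b (part A): the saturated points, the thin lines and the case
of short fat lines. -/

set_option autoImplicit false
set_option linter.unusedSectionVars false

namespace Pool.Agent.Helper80.RF

open Finset Classical H20SW

variable {Y U E G P R : Type} [Fintype Y] [Fintype U] [Fintype E] (C : Cone Y U E G P R)

/-- The points which are not saturated and not on the ray of `z`. -/
noncomputable def Xp (J : Finset E) (a b : E → Y) (D : ℕ) (z : U) : Finset Y :=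
  univ.filter fun y => ¬ C.tip z y ∧ Cone.dg J a b y ≠ D

/-- The saturated points which are not on the ray of `z`. -/
noncomputable def Bs (J : Finset E) (a b : E → Y) (D : ℕ) (z : U) : Finset Y :=
  univ.filter fun y => ¬ C.tip z y ∧ Cone.dg J a b y = D

theorem card_Xp (J : Finset E) (a b : E → Y) (D : ℕ) (z : U) :
    Fintype.card Y ≤ (Xp C J a b D z).card + (Bs C J a b D z).card + 1 := by
  have h1 : (univ : Finset Y) ⊆ (Xp C J a b D z ∪ Bs C J a b D z) ∪
      univ.filter (fun y => C.tip z y) := by
    intro y _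
    rw [mem_union, mem_union, Xp, Bs, mem_filter, mem_filter, mem_filter]
    by_cases h : C.tip z y
    · exact Or.inr ⟨mem_univ _, h⟩
    · by_cases h' : Cone.dg J a b y = D
      · exact Or.inl (Or.inr ⟨mem_univ _, h, h'⟩)
      · exact Or.inl (Or.inl ⟨mem_univ _, h, h'⟩)
  have h2 := card_le_card h1
  have h3 := card_union_le (Xp C J a b D z ∪ Bs C J a b D z) (univ.filter (fun y => C.tip z y))
  have h4 := card_union_le (Xp C J a b D z) (Bs C J a b D z)
  have h5 : (univ.filter (fun y => C.tip z y)).card ≤ 1 := by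
    rw [card_le_one]
    intro x hx y hy
    rw [mem_filter] at hx hy
    exact C.tip_uniq z x y hx.2 hy.2
  rw [card_univ] at h2
  omega

/-- Thin allowed lines with two unsaturated points belong to the family. -/
theorem thin_le {p D : ℕ} {J : Finset E} {a b : E → Y} (hJ : C.Fam p D J a b) (z : U) :
    (univ.filter fun l => C.ok z l ∧ C.tl l < p ∧
      2 ≤ ((Xp C J a b D z).filter fun x => C.on x l).card).card ≤ C.Jz J z := by
  refine card_le_card ?_
  intro l hl
  rw [mem_filter] at hl ⊢
  obtain ⟨-, hok, hthin, hc⟩ := hl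
  refine ⟨?_, hok⟩
  by_contra hlJ
  obtain ⟨x, hx, y, hy, hxy⟩ := one_lt_card.mp hc
  rw [mem_filter, Xp, mem_filter] at hx hy
  rcases hJ.maxl l hlJ hthin x y hxy hx.2 hy.2 with h | h
  · exact hx.1.2.2 h
  · exact hy.1.2.2 h

/-- Every saturated point is in many allowed pairs. -/
theorem sat_le {p D : ℕ} {J : Finset E} {a b : E → Y} (hJ : C.Fam p D J a b) (z : U) :
    (Bs C J a b D z).card * (D - 1) ≤ 2 * C.Jz J z := by
  set Jo := J.filter fun l => C.ok z l with hJo
  have h1 : ∀ y ∈ Bs C J a b D z, D - 1 ≤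
      (Finset.bipartiteAbove (fun y l => a l = y ∨ b l = y) Jo y).card := by
    intro y hy
    rw [Bs, mem_filter] at hy
    obtain ⟨-, htip, hdg⟩ := hy
    rw [Cone.dg] at hdg
    have h2 := card_filter_add_card_filter_not (s := J.filter fun l => a l = y ∨ b l = y)
      (fun l => C.ok z l)
    have h3 : ((J.filter fun l => a l = y ∨ b l = y).filter fun l => ¬ C.ok z l).card ≤ 1 := by
      rw [card_le_one]
      intro l hl m hm
      rw [mem_filter, mem_filter] at hl hm
      have hon : ∀ l, l ∈ J → (a l = y ∨ b l = y) → C.on y l := by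
        intro l hl h
        rcases h with h | h
        · rw [← h]
          exact hJ.ona l hl
        · rw [← h]
          exact hJ.onb l hl
      exact C.bad_uniq z y l m htip (hon l hl.1.1 hl.1.2) (hon m hm.1.1 hm.1.2) hl.2 hm.2
    have h4 : (J.filter fun l => a l = y ∨ b l = y).filter (fun l => C.ok z l) =
        Finset.bipartiteAbove (fun y l => a l = y ∨ b l = y) Jo y := by
      ext l
      rw [Finset.bipartiteAbove, mem_filter, mem_filter, mem_filter, hJo, mem_filter]
      tauto
    rw [h4] at h2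
    omega
  have h2 : ∀ l ∈ Jo, (Finset.bipartiteBelow (fun y l => a l = y ∨ b l = y)
      (Bs C J a b D z) l).card ≤ 2 := by
    intro l _
    refine (card_le_card (t := {a l, b l}) ?_).trans card_le_two
    intro y hy
    rw [Finset.bipartiteBelow, mem_filter] at hy
    rw [mem_insert, mem_singleton]
    rcases hy.2 with h | h
    · exact Or.inl h.symm
    · exact Or.inr h.symm
  have h3 := Finset.sum_card_bipartiteAbove_eq_sum_card_bipartiteBelow
    (s := Bs C J a b D z) (t := Jo) (fun y l => a l = y ∨ b l = y)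
  have h4 := sum_le_sum h1
  have h5 := sum_le_sum h2
  rw [sum_const, smul_eq_mul] at h4 h5
  have h6 : C.Jz J z = Jo.card := rfl
  rw [h6]
  omega

/-- The pair count. -/
theorem pairs_le (z : U) (X : Finset Y) (hX : ∀ x ∈ X, ¬ C.tip z x) (hs1 : 1 ≤ C.s) {k : ℕ}
    (hk : ∀ l, C.ok z l → (X.filter fun x => C.on x l).card ≤ k) :
    X.card * (X.card - C.s) ≤
      (univ.filter fun l => C.ok z l ∧ 2 ≤ (X.filter fun x => C.on x l).card).card * k ^ 2 := by
  set L := univ.filter fun l => C.ok z l ∧ 2 ≤ (X.filter fun x => C.on x l).card with hL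
  set S := (X ×ˢ X).filter (fun q => q.1 ≠ q.2 ∧ ∃ l, C.ok z l ∧ C.on q.1 l ∧ C.on q.2 l) with hS
  have h1 : X.card * (X.card - C.s) ≤ S.card := by
    have h0 : S.card = ∑ q ∈ X ×ˢ X,
        if (q.1 ≠ q.2 ∧ ∃ l, C.ok z l ∧ C.on q.1 l ∧ C.on q.2 l) then 1 else 0 :=
      card_filter _ _
    rw [h0, sum_product]
    have h2 : ∀ x ∈ X, X.card - C.s ≤
        ∑ x' ∈ X, if (x ≠ x' ∧ ∃ l, C.ok z l ∧ C.on x l ∧ C.on x' l) then 1 else 0 := by
      intro x hx
      rw [← card_filter]
      have h3 := card_filter_add_card_filter_not (s := X)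
        (fun x' => x ≠ x' ∧ ∃ l, C.ok z l ∧ C.on x l ∧ C.on x' l)
      have h4 : (X.filter fun x' => ¬ (x ≠ x' ∧ ∃ l, C.ok z l ∧ C.on x l ∧ C.on x' l)).card
          ≤ C.s := by
        by_cases hex : ∃ m, C.on x m ∧ ¬ C.ok z m
        · obtain ⟨m, hm1, hm2⟩ := hex
          refine (card_le_card ?_).trans (C.short m)
          intro x' hx'
          rw [mem_filter] at hx'
          rw [mem_filter]
          refine ⟨mem_univ _, ?_⟩
          by_cases hxx : x = x'
          · rw [← hxx]
            exact hm1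
          · obtain ⟨l, hl1, hl2⟩ := C.join x x' hxx
            have hlok : ¬ C.ok z l := fun h => hx'.2 ⟨hxx, l, h, hl1, hl2⟩
            rw [← C.bad_uniq z x l m (hX x hx) hl1 hm1 hlok hm2]
            exact hl2
        · push Not at hex
          refine (card_le_card (t := {x}) ?_).trans (by rw [card_singleton]; exact hs1)
          intro x' hx'
          rw [mem_filter] at hx'
          rw [mem_singleton]
          by_contra hxx
          obtain ⟨l, hl1, hl2⟩ := C.join x x' (fun h => hxx h.symm)
          exact hx'.2 ⟨fun h => hxx h.symm, l, hex l hl1, hl1, hl2⟩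
      omega
    calc X.card * (X.card - C.s) = ∑ _x ∈ X, (X.card - C.s) := by
          rw [sum_const, smul_eq_mul]
      _ ≤ _ := sum_le_sum h2
  refine h1.trans ?_
  have h2 : S ⊆ L.biUnion (fun l => (X.filter fun x => C.on x l) ×ˢ
      (X.filter fun x => C.on x l)) := by
    intro q hq
    rw [hS, mem_filter, mem_product] at hq
    obtain ⟨⟨q1, q2⟩, q3, l, q4, q5, q6⟩ := hq
    rw [mem_biUnion]
    refine ⟨l, ?_, ?_⟩
    · rw [hL, mem_filter]
      refine ⟨mem_univ _, q4, ?_⟩
      exact one_lt_card.mpr ⟨q.1, mem_filter.mpr ⟨q1, q5⟩, q.2, mem_filter.mpr ⟨q2, q6⟩, q3⟩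
    · rw [mem_product, mem_filter, mem_filter]
      exact ⟨⟨q1, q5⟩, q2, q6⟩
  refine (card_le_card h2).trans (card_biUnion_le.trans ?_)
  refine (sum_le_sum (g := fun _ => k ^ 2) ?_).trans ?_
  · intro l hl
    rw [hL, mem_filter] at hl
    rw [card_product, pow_two]
    exact Nat.mul_le_mul (hk l hl.2.1) (hk l hl.2.1)
  · rw [sum_const, smul_eq_mul]

end Pool.Agent.Helper80.RF
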